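import Pool.Agent.C4K.StDet

/-!
# T1 (B), WALKS: modules ITR, CLO, OLD (helper10)
-/

set_option autoImplicit false

namespace Pool.Agent.C4K.H10

open Finset Pool.Agent.C4K Pool.Agent.C4K.Cl
open scoped Classical

noncomputable section

variable {V : Type}

theorem it_zero (f : V → Option V) (v : V) : it f 0 v = some v := rfl

theorem it_add (f : V → Option V) (i j : ℕ) (v : V) :
    it f (i + j) v = (it f i v).bind (it f j) := by
  induction i generalizing v with
  | zero => rw [Nat.zero_add]; rfl
  | succ i ih =>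
    have h : i + 1 + j = (i + j) + 1 := by omega
    rw [h]
    show (f v).bind (it f (i + j)) = ((f v).bind (it f i)).bind (it f j)
    cases hf : f v with
    | none => rfl
    | some a => exact ih a

theorem it_one (f : V → Option V) (v : V) : it f 1 v = f v := by
  show (f v).bind (it f 0) = f v
  cases f v <;> rfl

theorem it_succ (f : V → Option V) (j : ℕ) (v : V) : it f (j + 1) v = (it f j v).bind f := by
  rw [it_add]
  cases h : it f j v with
  | none => rfl
  | some a => exact it_one f a

theorem it_inj {f : V → Option V} (hf : PInj f) (j : ℕ) : PInj (it f j) := by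
  induction j with
  | zero =>
    intro x x' y h1 h2
    exact (Option.some_injective _ h1).trans (Option.some_injective _ h2).symm
  | succ j ih =>
    intro x x' y h1 h2
    change (f x).bind (it f j) = some y at h1
    change (f x').bind (it f j) = some y at h2
    rw [Option.bind_eq_some_iff] at h1 h2
    obtain ⟨a, ha, ha'⟩ := h1
    obtain ⟨b, hb, hb'⟩ := h2
    have := ih a b y ha' hb'
    subst this
    exact hf x x' a ha hb

theorem it_rep {f : V → Option V} (hf : PInj f) (v : V) (i j : ℕ) (u : V)
    (h1 : it f i v = some u) (h2 : it f (i + j) v = some u) : it f j v = some v := by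
  induction i generalizing u with
  | zero =>
    have : v = u := Option.some_injective _ h1
    subst this
    rwa [Nat.zero_add] at h2
  | succ i ih =>
    have h : i + 1 + j = (i + j) + 1 := by omega
    rw [h, it_succ, Option.bind_eq_some_iff] at h2
    rw [it_succ, Option.bind_eq_some_iff] at h1
    obtain ⟨a, ha, ha'⟩ := h1
    obtain ⟨b, hb, hb'⟩ := h2
    have := hf a b u ha' hb'
    subst this
    exact ih a ha hb

/-- ITR. -/
theorem itr : ITRStmt := fun V f =>
  { add := it_add f
    succ := it_succ f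
    inj := fun hf j => it_inj hf j
    fwd := by
      intro _ L v
      have hsub : (univ.filter fun u => ∃ j, j ≤ L ∧ it f j v = some u) ⊆
          (range (L + 1)).image fun j => (it f j v).getD v := by
        intro u hu
        rw [mem_filter] at hu
        obtain ⟨_, j, hj, h⟩ := hu
        rw [mem_image]
        exact ⟨j, mem_range.2 (by omega), by rw [h]; rfl⟩
      calc _ ≤ _ := card_le_card hsub
        _ ≤ (range (L + 1)).card := card_image_le
        _ = L + 1 := card_range _
    bwd := by
      intro hf _ L v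
      have hex : ∀ u : V, (∃ j, j ≤ L ∧ it f j u = some v) → ∃ j, j ≤ L ∧ it f j u = some v :=
        fun _ h => h
      let g : V → ℕ := fun u => if h : ∃ j, j ≤ L ∧ it f j u = some v then h.choose else 0
      have hg : ∀ u : V, (∃ j, j ≤ L ∧ it f j u = some v) → g u ≤ L ∧ it f (g u) u = some v := by
        intro u h
        have : g u = h.choose := dif_pos h
        rw [this]
        exact h.choose_spec
      calc _ ≤ (range (L + 1)).card := by
            refine card_le_card_of_injOn g ?_ ?_
            · intro u hu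
              have := (hg u (mem_filter.1 hu).2).1
              exact mem_coe.2 (mem_range.2 (by omega))
            · intro u hu u' hu' h
              have h1 := (hg u (mem_filter.1 hu).2).2
              have h2 := (hg u' (mem_filter.1 hu').2).2
              rw [← h] at h2
              exact it_inj hf _ u u' v h1 h2
        _ = L + 1 := card_range _
    rep := fun hf v i j u h1 h2 => it_rep hf v i j u h1 h2 }

/-! ### walks through a node of multiplicity one -/

variable [Fintype V] {C : Cl V} {T : ℕ}

theorem mult_pos {om : C.Wk T → Bool} {w : C.Wk T} {u : V} (h : om w = true) (hu : w.has u) :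
    mult om u ≠ 0 := by
  unfold mult
  exact card_ne_zero_of_mem (mem_filter.2 ⟨mem_univ w, h, hu⟩)

theorem mult_one_eq {om : C.Wk T → Bool} {w w' : C.Wk T} {u : V} (h : mult om u = 1)
    (hw : om w = true) (hu : w.has u) (hw' : om w' = true) (hu' : w'.has u) : w = w' := by
  unfold mult at h
  exact card_le_one.1 h.le w (mem_filter.2 ⟨mem_univ w, hw, hu⟩) w'
    (mem_filter.2 ⟨mem_univ w', hw', hu'⟩)

theorem cx_of_mult_zero (hP : Pim C T) {om : C.Wk T → Bool} {u : V} (h : mult om u = 0) :
    cx om u = C.f u := by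
  apply Option.ext
  intro y
  rw [hP.iff]
  constructor
  · rintro (⟨_, h1⟩ | ⟨_, _, _, _, _, _, h1, _⟩)
    · exact h1
    · rw [h] at h1
      exact absurd h1 (by norm_num)
  · intro h1
    exact Or.inl ⟨h, h1⟩

/-- OLD. -/
theorem old (hp : PIMStmt) : OLDStmt := by
  intro V _ C d T hC om x m _ h a
  have hP := hp V C d T hC
  induction a with
  | zero => rfl
  | succ a ih =>
    rw [it_succ, it_succ, ih]
    cases hu : it (cx om) a x with
    | none => rfl
    | some u => exact (cx_of_mult_zero hP (h a u hu)).symm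

/-- CLO. -/
theorem clo' (hp : PIMStmt) : CLOStmt := by
  intro V _ C d T hC om x m hm hx hlink
  have hP := hp V C d T hC
  have hinj : PInj (cx om) := hP.inj om
  -- the cycle
  let Z : V → Prop := fun u => ∃ a, it (cx om) a x = some u
  have hper : ∀ u, Z u → it (cx om) m u = some u := by
    rintro u ⟨a, ha⟩
    have h1 : it (cx om) (a + m) x = some u := by
      rw [Nat.add_comm, it_add, hx]
      exact ha
    rw [it_add, ha] at h1
    exact h1
  have hnext : ∀ u, Z u → ∃ u', cx om u = some u' ∧ Z u' ∧ it (cx om) (m - 1) u' = some u := by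
    intro u hu
    have h1 := hper u hu
    obtain ⟨m', rfl⟩ : ∃ m', m = m' + 1 := ⟨m - 1, by omega⟩
    change (cx om u).bind (it (cx om) m') = some u at h1
    rw [Option.bind_eq_some_iff] at h1
    obtain ⟨u', h2, h3⟩ := h1
    obtain ⟨a, ha⟩ := hu
    refine ⟨u', h2, ⟨a + 1, ?_⟩, h3⟩
    rw [it_succ, ha]
    exact h2
  have hZit : ∀ u j, Z u → ∃ u', it (cx om) j u = some u' ∧ Z u' := by
    intro u j hu
    induction j with
    | zero => exact ⟨u, rfl, hu⟩
    | succ j ih =>
      obtain ⟨u', h1, h2⟩ := ih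
      obtain ⟨u'', h3, h4, _⟩ := hnext u' h2
      exact ⟨u'', by rw [it_succ, h1]; exact h3, h4⟩
  -- out-arcs of nodes of multiplicity `≠ 0` of the cycle are links
  have hlk : ∀ u y, mult om u ≠ 0 → cx om u = some y → lnk om u y := by
    intro u y h1 h2
    rcases (hP.iff om u y).1 h2 with h | h
    · exact absurd h.1 h1
    · exact h
  -- the walk
  obtain ⟨a0, u0, ha0, hu0⟩ := hlink
  obtain ⟨y0, hy0, _, _⟩ := hnext u0 ⟨a0, ha0⟩
  obtain ⟨w, hw, i0, hi0, hwi0, _, hmu0, _⟩ := hlk u0 y0 hu0 hy0
  -- the link of `w` at a node of multiplicity one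
  have hhd : ∀ j, j ≤ T → mult om (w.n j) = 1 → ∀ y, cx om (w.n j) = some y →
      j < T ∧ w.hd j y := by
    intro j hj h1 y h2
    obtain ⟨w', hw', i', hi', h3, h4, _, _⟩ := hlk _ y (by rw [h1]; norm_num) h2
    have h5 : w = w' := mult_one_eq h1 hw ⟨j, hj, rfl⟩ hw' ⟨i', hi'.le, h3⟩
    subst h5
    have h6 : i' = j := w.2.inj i' j hi'.le hj h3
    subst h6
    exact ⟨hi', h4⟩
  let J : Finset ℕ := (range T).filter fun j => Z (w.n j) ∧ mult om (w.n j) = 1
  have hJ : J.Nonempty := ⟨i0, mem_filter.2 ⟨mem_range.2 hi0, by rw [hwi0]; exact ⟨a0, ha0⟩,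
    by rw [hwi0]; exact hmu0⟩⟩
  obtain ⟨l, hlJ, hlmax⟩ : ∃ l ∈ J, ∀ j ∈ J, j ≤ l := ⟨J.max' hJ, J.max'_mem hJ,
    fun j hj => J.le_max' j hj⟩
  have hlT : l < T := mem_range.1 (mem_filter.1 hlJ).1
  obtain ⟨hlZ, hlm⟩ := (mem_filter.1 hlJ).2
  obtain ⟨y, hy, hyZ, hyr⟩ := hnext (w.n l) hlZ
  have hly : w.hd l y := (hhd l hlT.le hlm y hy).2
  have hex : ∃ s, ∃ i ∈ J, it (cx om) s y = some (w.n i) := ⟨m - 1, l, hlJ, hyr⟩
  let t := Nat.find hex
  obtain ⟨i, hiJ, hi⟩ : ∃ i ∈ J, it (cx om) t y = some (w.n i) := Nat.find_spec hex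
  have htm : t < m := by
    have : t ≤ m - 1 := Nat.find_min' hex ⟨l, hlJ, hyr⟩
    omega
  have hmin : ∀ s, s < t → ¬ ∃ i ∈ J, it (cx om) s y = some (w.n i) := fun s hs =>
    Nat.find_min hex hs
  -- the nodes before
  have hstep : ∀ j, j < t → ∃ u u', it (cx om) j y = some u ∧ cx om u = some u' ∧
      cx (rem om w) u = some u' ∧ Z u := by
    intro j hj
    obtain ⟨u, hu, huZ⟩ := hZit y j hyZ
    obtain ⟨u', hu', _, _⟩ := hnext u huZ
    refine ⟨u, u', hu, hu', ?_, huZ⟩
    apply hP.mon om w u u' hw hu'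
    rintro ⟨h1, j0, hj0, h2⟩
    subst h2
    obtain ⟨h3, _⟩ := hhd j0 hj0 h1 u' hu'
    exact hmin j hj ⟨j0, mem_filter.2 ⟨mem_range.2 h3, huZ, h1⟩, hu⟩
  have hsame : ∀ j, j ≤ t → it (cx (rem om w)) j y = it (cx om) j y := by
    intro j
    induction j with
    | zero => intro _; rfl
    | succ j ih =>
      intro hj
      obtain ⟨u, u', h1, h2, h3, _⟩ := hstep j (by omega)
      rw [it_succ, it_succ, ih (by omega), h1]
      exact h3.trans h2.symm
  refine ⟨w, i, l, t, y, ⟨hw, hlmax i hiJ, hlT, y, hly, ?_, ?_⟩, hly, htm, hy, hlZ, ?_⟩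
  · rw [hsame t le_rfl]
    exact hi
  · intro a b hab hbt h
    rw [hsame a (by omega), hsame b hbt] at h
    obtain ⟨u, hu, _⟩ := hZit y a hyZ
    rw [hu] at h
    have hb : b = a + (b - a) := by omega
    rw [hb] at h
    have h1 := it_rep hinj y a (b - a) u hu h.symm
    have h2 : it (cx om) (t - (b - a)) y = some (w.n i) := by
      have h3 := hi
      have h4 : t = (b - a) + (t - (b - a)) := by omega
      rw [h4, it_add, h1] at h3
      exact h3
    exact hmin (t - (b - a)) (by omega) ⟨i, hiJ, h2⟩
  · intro j hj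
    obtain ⟨u, u', h1, h2, h3, h4⟩ := hstep j hj
    refine ⟨u, u', ?_, ?_, h2, h4⟩
    · rw [hsame j (by omega)]
      exact h1
    · rw [hsame (j + 1) (by omega), it_succ, h1]
      exact h2

end

end Pool.Agent.C4K.H10
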